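import Mathlib
import Pool.Agent.Helper65.Inj.JDefs

/-!
JC: the structure left by the final `J` is in the class of the R-lemma.
-/

namespace Pool.Agent.Helper63.Inj

open Classical
open Pool.Agent.Helper65.Inj Pool.Agent.Helper65.Inj.Cub

set_option linter.unusedSectionVars false
set_option linter.unusedVariables false

variable {A B : Type} [Fintype A] [Fintype B] {H : Cub A B} {J D : Finset A}

theorem mem_pt {b : B} {v : A} : v ∈ (H.rs J D).pt b ↔ v ∈ H.pt b ∧ v ∉ J := by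
  unfold RS.pt Cub.rs
  simp only [Finset.mem_filter, Finset.mem_sdiff, Finset.mem_univ, true_and, H.mem]
  tauto

theorem tok_iff {b : B} : (H.rs J D).Tok b ↔ H.U J b := by
  have hsub : (H.rs J D).pt b ⊆ H.pt b := fun v hv => (mem_pt.1 hv).1
  constructor
  · intro h u hu
    have he : (H.rs J D).pt b = H.pt b :=
      Finset.eq_of_subset_of_card_le hsub (by rw [H.pt3]; exact h.ge)
    rw [← he] at hu
    exact (mem_pt.1 hu).2
  · intro h
    have he : (H.rs J D).pt b = H.pt b :=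
      Finset.Subset.antisymm hsub (fun v hv => mem_pt.2 ⟨hv, h v hv⟩)
    unfold RS.Tok
    rw [he, H.pt3]

/-- the other points outside `J` of a block of `v` -/
noncomputable def nb (H : Cub A B) (J : Finset A) (v : A) (b : B) : Finset A := (H.pt b \ J).erase v

theorem mem_nb {v w : A} {b : B} : w ∈ nb H J v b ↔ w ≠ v ∧ w ∈ H.pt b ∧ w ∉ J := by
  unfold nb
  rw [Finset.mem_erase, Finset.mem_sdiff]

theorem blk {v : A} {b : B} (hv : v ∈ H.pt b) (hvJ : v ∉ J) :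
    (H.U J b ∧ (nb H J v b).card = 2) ∨ ((∃ j, H.P J b j) ∧ (nb H J v b).card = 1) ∨
      (¬ H.U J b ∧ (nb H J v b).card = 0) := by
  obtain ⟨r, s, h1, h2, h3, hr, hs, hall⟩ := ex_pt1 hv
  by_cases hrJ : r ∈ J <;> by_cases hsJ : s ∈ J
  · refine Or.inr (Or.inr ⟨fun h => h r hr hrJ, ?_⟩)
    rw [Finset.card_eq_zero, Finset.eq_empty_iff_forall_notMem]
    intro w hw
    obtain ⟨e1, e2, e3⟩ := mem_nb.1 hw
    rcases hall w e2 with rfl | rfl | rfl
    · exact e1 rfl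
    · exact e3 hrJ
    · exact e3 hsJ
  · refine Or.inr (Or.inl ⟨⟨r, hr, hrJ, fun u hu huJ => ?_⟩, ?_⟩)
    · rcases hall u hu with rfl | rfl | rfl
      · exact absurd huJ hvJ
      · rfl
      · exact absurd huJ hsJ
    · rw [Finset.card_eq_one]
      refine ⟨s, ?_⟩
      ext w
      rw [mem_nb, Finset.mem_singleton]
      constructor
      · rintro ⟨e1, e2, e3⟩
        rcases hall w e2 with rfl | rfl | rfl
        · exact absurd rfl e1
        · exact absurd hrJ e3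
        · rfl
      · rintro rfl
        exact ⟨h2.symm, hs, hsJ⟩
  · refine Or.inr (Or.inl ⟨⟨s, hs, hsJ, fun u hu huJ => ?_⟩, ?_⟩)
    · rcases hall u hu with rfl | rfl | rfl
      · exact absurd huJ hvJ
      · exact absurd huJ hrJ
      · rfl
    · rw [Finset.card_eq_one]
      refine ⟨r, ?_⟩
      ext w
      rw [mem_nb, Finset.mem_singleton]
      constructor
      · rintro ⟨e1, e2, e3⟩
        rcases hall w e2 with rfl | rfl | rfl
        · exact absurd rfl e1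
        · rfl
        · exact absurd hsJ e3
      · rintro rfl
        exact ⟨h1.symm, hr, hrJ⟩
  · refine Or.inl ⟨fun u hu => ?_, ?_⟩
    · rcases hall u hu with rfl | rfl | rfl
      · exact hvJ
      · exact hrJ
      · exact hsJ
    · rw [Finset.card_eq_two]
      refine ⟨r, s, h3, ?_⟩
      ext w
      rw [mem_nb, Finset.mem_insert, Finset.mem_singleton]
      constructor
      · rintro ⟨e1, e2, e3⟩
        rcases hall w e2 with h | h | h
        · exact absurd h e1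
        · exact Or.inl h
        · exact Or.inr h
      · rintro (rfl | rfl)
        · exact ⟨h1.symm, hr, hrJ⟩
        · exact ⟨h2.symm, hs, hsJ⟩

/-- four neighbours, one unhit block -/
theorem hv_main {v : A} {T b c : B} {j k : A} (hX : XD H J v T b c j k)
    (cT : (nb H J v T).card = 2) (cb : (nb H J v b).card = 1) (cc : (nb H J v c).card = 1)
    (h4 : 4 ≤ (nb H J v T ∪ nb H J v b ∪ nb H J v c).card) : H.Hv J v := by
  have key : ∀ X Y Z : Finset A, X.card + Y.card + Z.card ≤ 4 → 4 ≤ (X ∪ Y ∪ Z).card →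
      ∀ w, w ∈ X → w ∈ Y → False := by
    intro X Y Z h1 h2 w hx hy
    have e1 : (X ∪ Y).card + (X ∩ Y).card = X.card + Y.card := Finset.card_union_add_card_inter X Y
    have e2 : 0 < (X ∩ Y).card := Finset.card_pos.2 ⟨w, Finset.mem_inter.2 ⟨hx, hy⟩⟩
    have e3 := Finset.card_union_le (X ∪ Y) Z
    omega
  have kTb := key (nb H J v T) (nb H J v b) (nb H J v c) (by omega) h4
  have kTc := key (nb H J v T) (nb H J v c) (nb H J v b) (by omega) (by
    rw [Finset.union_right_comm]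
    exact h4)
  have kbc := key (nb H J v b) (nb H J v c) (nb H J v T) (by omega) (by
    rw [Finset.union_comm, ← Finset.union_assoc]
    exact h4)
  refine ⟨⟨T, b, c, j, k, hX⟩, ?_⟩
  intro w hwJ hwv r r' hr hr' hwr hwr'
  have m : ∀ r, w ∈ H.pt r → w ∈ nb H J v r := fun r hr => mem_nb.2 ⟨hwv, hr, hwJ⟩
  rcases hX.all hr with rfl | rfl | rfl <;> rcases hX.all hr' with rfl | rfl | rfl
  · rfl
  · exact (kTb w (m _ hwr) (m _ hwr')).elim
  · exact (kTc w (m _ hwr) (m _ hwr')).elim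
  · exact (kTb w (m _ hwr') (m _ hwr)).elim
  · rfl
  · exact (kbc w (m _ hwr) (m _ hwr')).elim
  · exact (kTc w (m _ hwr') (m _ hwr)).elim
  · exact (kbc w (m _ hwr') (m _ hwr)).elim
  · rfl

/-- at most four neighbours; four neighbours: heavy -/
theorem nbs {v : A} (hO : H.Opt J) (hvJ : v ∉ J) {b c d : B} (hbc : b ≠ c) (hbd : b ≠ d)
    (hcd : c ≠ d) (hb : v ∈ H.pt b) (hc : v ∈ H.pt c) (hd : v ∈ H.pt d) :
    (nb H J v b ∪ nb H J v c ∪ nb H J v d).card ≤ 4 ∧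
      (3 < (nb H J v b ∪ nb H J v c ∪ nb H J v d).card → H.Hv J v) := by
  have e1 := Finset.card_union_le (nb H J v b ∪ nb H J v c) (nb H J v d)
  have e2 := Finset.card_union_le (nb H J v b) (nb H J v c)
  have f1 : ¬ (H.U J b ∧ H.U J c) := fun h => hbc (F1 hO hb hc h.1 h.2)
  have f2 : ¬ (H.U J b ∧ H.U J d) := fun h => hbd (F1 hO hb hd h.1 h.2)
  have f3 : ¬ (H.U J c ∧ H.U J d) := fun h => hcd (F1 hO hc hd h.1 h.2)
  rcases blk hb hvJ with ⟨u1, c1⟩ | ⟨⟨j1, p1⟩, c1⟩ | ⟨n1, c1⟩ <;>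
    rcases blk hc hvJ with ⟨u2, c2⟩ | ⟨⟨j2, p2⟩, c2⟩ | ⟨n2, c2⟩ <;>
      rcases blk hd hvJ with ⟨u3, c3⟩ | ⟨⟨j3, p3⟩, c3⟩ | ⟨n3, c3⟩
  all_goals
    first
    | exact (f1 ⟨u1, u2⟩).elim
    | exact (f2 ⟨u1, u3⟩).elim
    | exact (f3 ⟨u2, u3⟩).elim
    | (refine ⟨by omega, fun h => ?_⟩
       first
       | exact absurd h (by omega)
       | exact hv_main ⟨hb, hc, hd, hcd, u1, p2, p3⟩ c1 c2 c3 h
       | exact hv_main ⟨hc, hb, hd, hbd, u2, p1, p3⟩ c2 c1 c3 (by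
          rw [Finset.union_comm (nb H J v c)]
          exact h)
       | exact hv_main ⟨hd, hb, hc, hbc, u3, p1, p2⟩ c3 c1 c2 (by
          rw [Finset.union_assoc, Finset.union_comm]
          exact h))

theorem adj_blk {u v : A} (h : (H.rs J D).adj u v) :
    u ≠ v ∧ u ∉ J ∧ v ∉ J ∧ ∃ b, u ∈ H.pt b ∧ v ∈ H.pt b := by
  obtain ⟨hne, b, hu, hv, _⟩ := h
  exact ⟨hne, (mem_pt.1 hu).2, (mem_pt.1 hv).2, b, (mem_pt.1 hu).1, (mem_pt.1 hv).1⟩

theorem filter_sub {v : A} {b c d : B} (hall : ∀ r, v ∈ H.pt r → r = b ∨ r = c ∨ r = d) :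
    (H.rs J D).R.filter (fun w => (H.rs J D).adj v w) ⊆
      nb H J v b ∪ nb H J v c ∪ nb H J v d := by
  intro w hw
  obtain ⟨hne, hvJ, hwJ, r, hr, hwr⟩ := adj_blk (Finset.mem_filter.1 hw).2
  have hm : w ∈ nb H J v r := mem_nb.2 ⟨hne.symm, hwr, hwJ⟩
  rw [Finset.mem_union, Finset.mem_union]
  rcases hall r hr with rfl | rfl | rfl
  · exact Or.inl (Or.inl hm)
  · exact Or.inl (Or.inr hm)
  · exact Or.inr hm

theorem deg_le {v : A} (hO : H.Opt J) (hvJ : v ∉ J) : (H.rs J D).deg v ≤ 4 := by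
  obtain ⟨b, c, d, h1, h2, h3, hb, hc, hd, hall⟩ := ex_bl (H := H) v
  exact (Finset.card_le_card (filter_sub hall)).trans (nbs hO hvJ h1 h2 h3 hb hc hd).1

theorem hv_of_deg {v : A} (hO : H.Opt J) (hvJ : v ∉ J) (h : 3 < (H.rs J D).deg v) : H.Hv J v := by
  obtain ⟨b, c, d, h1, h2, h3, hb, hc, hd, hall⟩ := ex_bl (H := H) v
  exact (nbs hO hvJ h1 h2 h3 hb hc hd).2 (h.trans_le (Finset.card_le_card (filter_sub hall)))

/-- all neighbours in common blocks are adjacent if the degree is four -/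
theorem adj_of_deg {v w : A} {r : B} (hO : H.Opt J) (hvJ : v ∉ J) (h : 3 < (H.rs J D).deg v)
    (hwJ : w ∉ J) (hne : w ≠ v) (hv : v ∈ H.pt r) (hw : w ∈ H.pt r) : (H.rs J D).adj v w := by
  obtain ⟨b, c, d, h1, h2, h3, hb, hc, hd, hall⟩ := ex_bl (H := H) v
  have e1 := filter_sub (J := J) (D := D) hall
  have e2 := (nbs hO hvJ h1 h2 h3 hb hc hd).1
  have e3 := Finset.eq_of_subset_of_card_le e1 (e2.trans h)
  have hm : w ∈ nb H J v r := mem_nb.2 ⟨hne, hw, hwJ⟩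
  have hm2 : w ∈ nb H J v b ∪ nb H J v c ∪ nb H J v d := by
    rw [Finset.mem_union, Finset.mem_union]
    rcases hall r hv with rfl | rfl | rfl
    · exact Or.inl (Or.inl hm)
    · exact Or.inl (Or.inr hm)
    · exact Or.inr hm
  rw [← e3] at hm2
  exact (Finset.mem_filter.1 hm2).2

theorem K4d.sw {T : B} {x y z o : A} (h : H.K4d J T x y z o) : H.K4d J T x z y o := by
  obtain ⟨⟨h1, h2, h3, h4, h5, h6, h7, h8, h9, ⟨g, h10, h11, h12⟩, h13, h14⟩, h15⟩ := h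
  exact ⟨⟨h1, h2, h4, h3, h6, h5, h7.symm, h8, h9, ⟨g, h10, h12, h11⟩, h14, h13⟩, h15⟩

theorem mem_DS {v : A} : v ∈ H.DS J ↔ v ∉ J ∧ ∃ T, H.U J T ∧ v ∈ H.pt T ∧
    ((H.Hv J v ∧ ∃ v', v' ≠ v ∧ v' ∈ H.pt T ∧ H.Hv J v') ∨ ∃ x z o, H.K4d J T x v z o) := by
  unfold DS
  simp only [Finset.mem_filter, Finset.mem_univ, true_and]

/-- JC -/
theorem st_C (hP2 : ST_P2) (hh3 : ST_h3) : ST_C := by
  intro A B _ _ H J hG
  have hO := hG.1
  refine ⟨?_, ?_, ?_, ?_, ?_, ?_, ?_, ?_⟩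
  · intro v hv
    exact H.bl3 v
  · intro b
    have hsub : (H.rs J (H.DS J)).pt b ⊆ H.pt b := fun v hv => (mem_pt.1 hv).1
    exact (Finset.card_le_card hsub).trans (H.pt3 b).le
  · intro v b b' h1 h2 hT hT'
    exact F1 hO (mem_pt.1 h1).1 (mem_pt.1 h2).1 (tok_iff.1 hT) (tok_iff.1 hT')
  · intro v hv
    have hvJ : v ∉ J := (Finset.mem_sdiff.1 hv).2
    exact deg_le hO hvJ
  · intro v hv h4
    have hvJ : v ∉ J := (Finset.mem_sdiff.1 hv).2
    have hH := hv_of_deg hO hvJ h4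
    obtain ⟨⟨T, b, c, j, k, hX⟩, hsh⟩ := id hH
    have hvT := hX.vT
    have hUT := hX.hT
    have hne : ∀ u, u ∈ H.pt T → u ≠ v → ¬ H.Hv J u := by
      intro u hu huv hHu
      have huJ : u ∉ J := hUT u hu
      obtain ⟨_, r, hvr, hur, hn⟩ := adj_of_deg (D := H.DS J) hO hvJ h4 huJ huv hvT hu
      have hrT : r = T := hsh u huJ huv r T (mem_pt.1 hvr).1 hvT (mem_pt.1 hur).1 hu
      subst hrT
      apply hn
      exact ⟨⟨mem_DS.2 ⟨hvJ, r, hUT, hvT, Or.inl ⟨hH, u, huv, hu, hHu⟩⟩, tok_iff.2 hUT⟩,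
        ⟨mem_DS.2 ⟨huJ, r, hUT, hu, Or.inl ⟨hHu, v, huv.symm, hvT, hH⟩⟩, tok_iff.2 hUT⟩⟩
    refine ⟨T, mem_pt.2 ⟨hvT, hvJ⟩, tok_iff.2 hUT, ?_, ?_⟩
    · intro u hu hD
      obtain ⟨huT, huJ⟩ := mem_pt.1 hu
      obtain ⟨_, T', hU', huT', h | ⟨x, z, o, hK⟩⟩ := mem_DS.1 hD
      · have hTT : T' = T := F1 hO huT' huT hU' hUT
        subst hTT
        obtain ⟨hHu, v', hv'u, hv'T, hHv'⟩ := h
        by_cases huv : u = v
        · subst huv
          exact hne v' hv'T hv'u hHv'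
        · exact hne u huT huv hHu
      · have hTT : T' = T := F1 hO huT' huT hU' hUT
        subst hTT
        have hP := hP2 A B H J T' x u z o hG hK.1
        obtain ⟨⟨k1, k2, k3, k4, k5, k6, k7, k8, k9, ⟨g, k10, k11, k12⟩, k13, k14⟩, k15⟩ := id hK
        rcases pt_cases k2 k3 k4 k5 k6 k7 hvT with h | h | h
        · exact hP (h ▸ hH)
        · subst h
          exact k10 (hsh z (hUT z k4) k7.symm g T' k11 hvT k12 k4)
        · subst h
          exact k10 (hsh u huJ k7 g T' k12 hvT k11 k3)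
    · intro u hu huv
      obtain ⟨huT, huJ⟩ := mem_pt.1 hu
      by_contra hcon
      push Not at hcon
      exact hne u huT huv (hv_of_deg hO huJ hcon)
  · intro b hT u hu hD
    obtain ⟨hub, huJ⟩ := mem_pt.1 hu
    have hUb := tok_iff.1 hT
    obtain ⟨_, T', hU', huT', h | ⟨x, z, o, hK⟩⟩ := mem_DS.1 hD
    · have hTT : T' = b := F1 hO huT' hub hU' hUb
      subst hTT
      obtain ⟨hHu, v', hv'u, hv'T, hHv'⟩ := h
      exact ⟨v', mem_pt.2 ⟨hv'T, hUb v' hv'T⟩, hv'u,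
        mem_DS.2 ⟨hUb v' hv'T, T', hUb, hv'T, Or.inl ⟨hHv', u, hv'u.symm, hub, hHu⟩⟩⟩
    · have hTT : T' = b := F1 hO huT' hub hU' hUb
      subst hTT
      obtain ⟨⟨k1, k2, k3, k4, k5, k6, k7, k8⟩, _⟩ := id hK
      exact ⟨z, mem_pt.2 ⟨k4, hUb z k4⟩, k7.symm,
        mem_DS.2 ⟨hUb z k4, T', hUb, k4, Or.inr ⟨x, u, o, K4d.sw hK⟩⟩⟩
  · intro b hT hD y hy z hz hyz hg y' z' hy' hz' ha ha'
    obtain ⟨g, hgb, hyg, hzg⟩ := hg
    obtain ⟨n1, n2, n3, be, n4, n5⟩ := adj_blk ha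
    obtain ⟨m1, m2, m3, ga, m4, m5⟩ := adj_blk ha'
    by_contra hcon
    push Not at hcon
    have hH := hv_of_deg hO n3 hcon
    exact hh3 A B H J b g be ga y z y' z' hO (tok_iff.1 hT) (mem_pt.1 hy).1 (mem_pt.1 hz).1 hyz hgb
      (mem_pt.1 hyg).1 (mem_pt.1 hzg).1 n3 m3 (fun h => hy' (mem_pt.2 ⟨h, n3⟩))
      (fun h => hz' (mem_pt.2 ⟨h, m3⟩)) n4 n5 m4 m5 hH
  · intro b hT hD y hy z hz hyz hg o ho ha ha' x hx hxy hxz
    obtain ⟨g, hgb, hyg, hzg⟩ := hg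
    obtain ⟨n1, n2, n3, be, n4, n5⟩ := adj_blk ha
    obtain ⟨m1, m2, m3, ga, m4, m5⟩ := adj_blk ha'
    have hUb := tok_iff.1 hT
    have hDD : H.DD J b x y z o := ⟨hUb, (mem_pt.1 hx).1, (mem_pt.1 hy).1, (mem_pt.1 hz).1, hxy, hxz,
      hyz, n3, fun h => ho (mem_pt.2 ⟨h, n3⟩), ⟨g, hgb, (mem_pt.1 hyg).1, (mem_pt.1 hzg).1⟩,
      ⟨be, n4, n5⟩, ⟨ga, m4, m5⟩⟩
    constructor
    · by_contra hcon
      push Not at hcon
      exact hP2 A B H J b x y z o hG hDD (hv_of_deg hO (mem_pt.1 hx).2 hcon)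
    · intro hh
      obtain ⟨l1, l2, l3, de, l4, l5⟩ := adj_blk hh
      exact hD y hy (mem_DS.2 ⟨(mem_pt.1 hy).2, b, hUb, (mem_pt.1 hy).1,
        Or.inr ⟨x, z, o, hDD, de, l4, l5⟩⟩)

/-- JC with the hypotheses of the module list -/
theorem st_C' (hP2 : ST_P2) (hh3 : ST_h3) (_ : ST_N) : ST_C := st_C hP2 hh3

end Pool.Agent.Helper63.Inj
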