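import Mathlib
import Pool.Agent.Helper65.Inj.JDefs
import Pool.Agent.Helper63.Inj.JC

/-!
Jg: the 2-colouring of the incidences of `J` and of the dropped incidences.
-/

namespace Pool.Agent.Helper63.Inj

open Classical
open Pool.Agent.Helper65.Inj Pool.Agent.Helper65.Inj.Cub

set_option linter.unusedSectionVars false
set_option linter.unusedVariables false

variable {A B : Type} [Fintype A] [Fintype B] {H : Cub A B} {J D : Finset A}

/-- an end has only one pair block -/
theorem lf_pair {a : A} {b D F : B} {p : A} (h : Lf H J a b D F p) {r : B} {q : A}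
    (hr : H.Q J r a q) : r = D := by
  rcases h.all hr.2.1 with rfl | rfl | rfl
  · exact absurd (h.hb.2.2 q hr.2.2.1 hr.2.2.2.2.1).symm hr.1
  · rfl
  · exact absurd (h.hF.2.2 q hr.2.2.1 hr.2.2.2.2.1).symm hr.1

/-- joined ends -/
def JE (H : Cub A B) (J : Finset A) (u : A) : Prop := ∃ r k, H.Q J r u k ∧ H.IsLf J u ∧ H.IsLf J k

theorem JE.Q {u v : A} {b : B} (h : JE H J u) (hb : H.Q J b u v) : JE H J v ∧ JE H J u := by
  obtain ⟨r, k, hQ, hu, hk⟩ := h
  obtain ⟨b1, D1, F1, p1, hL⟩ := id hu
  have e1 : b = D1 := lf_pair hL hb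
  have e2 : r = D1 := lf_pair hL hQ
  subst e1
  subst e2
  have hvk : v = k := by
    rcases hQ.2.2.2.2.2 v hb.2.2.1 hb.2.2.2.2.1 with h | h
    · exact absurd h hb.1.symm
    · exact h
  subst hvk
  exact ⟨⟨r, u, hb.symm, hk, hu⟩, ⟨r, v, hQ, hu, hk⟩⟩

theorem st_g : ST_g := by
  intro A B _ _ H J D hO hD
  obtain ⟨⟨s, hs⟩, hI⟩ := id hO.1
  refine ⟨fun u b => if u ∉ J then true else if (∃ t, H.Tr J t ∧ u ∈ H.pt t) then decide (H.Tr J b) else
    if JE H J u then decide (∃ k, H.Q J b u k) else s u, ?_⟩
  intro u v b b' huv hbb hub hvb hvb' hu hv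
  rcases hu with hu | ⟨hu, hdu⟩
  · rcases hv with hv | ⟨hv, hdv⟩
    · simp only [hu, hv, not_true_eq_false, if_false]
      rcases tr_cases_mem hub hu with h | ⟨w, h⟩ | h
      · exact absurd (h.2.2 v hvb hv) huv.symm
      · have hwv : v = w := by
          rcases h.2.2.2.2.2 v hvb hv with h' | h'
          · exact absurd h' huv.symm
          · exact h'
        subst hwv
        have n1 : ¬ ∃ t, H.Tr J t ∧ u ∈ H.pt t := by
          rintro ⟨t, ht, hut⟩
          exact h.nt hI t (mem_bl.2 hut) ht
        have n2 : ¬ ∃ t, H.Tr J t ∧ v ∈ H.pt t := by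
          rintro ⟨t, ht, hut⟩
          exact h.symm.nt hI t (mem_bl.2 hut) ht
        simp only [n1, n2, if_false]
        by_cases hJE : JE H J u
        · have hJv := (hJE.Q h).1
          obtain ⟨r, k, hQ, ⟨b1, D1, F1, p1, hL⟩, hk⟩ := id hJv
          have e1 : b = D1 := lf_pair hL h.symm
          have n3 : ¬ ∃ k, H.Q J b' v k := by
            rintro ⟨k', hk'⟩
            exact hbb (e1.trans (lf_pair hL hk').symm)
          have e3 : ∃ k, H.Q J b u k := ⟨v, h⟩
          simp only [hJE, hJv, if_true, n3, e3, decide_true, decide_false]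
          simp
        · have hJv : ¬ JE H J v := fun h' => hJE (h'.Q h.symm).1
          simp only [hJE, hJv, if_false]
          exact hs b u v h
      · have e1 : ∃ t, H.Tr J t ∧ u ∈ H.pt t := ⟨b, h, hub⟩
        have e2 : ∃ t, H.Tr J t ∧ v ∈ H.pt t := ⟨b, h, hvb⟩
        have n3 : ¬ H.Tr J b' := fun h' => hbb (tr_unique hI hvb hvb' h h')
        simp only [e1, e2, if_true, h, n3, decide_true, decide_false]
        simp
    · obtain ⟨T, c, d, j, k, hX, hLP⟩ := hD v hdv.1 hv
      have hT' := tok_iff.1 hdv.2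
      have hTb : b' = T := F1 hO hvb' hX.vT hT' hX.hT
      subst hTb
      have key : ∀ (c d : B) (j k : A), XD H J v b' c d j k → ¬ H.LP j k → b = c →
          (if u ∉ J then true else if (∃ t, H.Tr J t ∧ u ∈ H.pt t) then decide (H.Tr J b) else
            if JE H J u then decide (∃ k, H.Q J b u k) else s u) ≠ true := by
        intro c d j k hX hLP hbc
        subst hbc
        have huj : u = j := hX.hj.2.2 u hub hu
        subst huj
        have n1 : ¬ ∃ t, H.Tr J t ∧ u ∈ H.pt t := by
          rintro ⟨t, ht, hut⟩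
          exact hX.nt1 hO t (mem_bl.2 hut) ht
        unfold Cub.LP at hLP
        push Not at hLP
        obtain ⟨r, hur, hkr⟩ := hLP
        have hne := hX.ne hO
        have hkJ := hX.hk.2.1
        obtain ⟨D1, F1', p1, hL1⟩ := hX.lf hO
        obtain ⟨D2, F2', p2, hL2⟩ := hX.symm.lf hO
        have hQ : H.Q J r u k := by
          rcases tr_cases_mem hur hu with h | ⟨w, h⟩ | h
          · exact absurd (h.2.2 k hkr hkJ).symm hne
          · rcases h.2.2.2.2.2 k hkr hkJ with h' | h'
            · exact absurd h'.symm hne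
            · subst h'
              exact h
          · exact absurd h (fun h' => n1 ⟨r, h', hur⟩)
        have hJE : JE H J u := ⟨r, k, hQ, ⟨b, D1, F1', p1, hL1⟩, ⟨d, D2, F2', p2, hL2⟩⟩
        have n3 : ¬ ∃ k, H.Q J b u k := by
          rintro ⟨q, hq⟩
          exact hL1.bD (lf_pair hL1 hq)
        simp only [hu, not_true_eq_false, if_false, n1, hJE, if_true, n3, decide_false]
        simp
      have hgv : (if v ∉ J then true else if (∃ t, H.Tr J t ∧ v ∈ H.pt t) then decide (H.Tr J b') else
            if JE H J v then decide (∃ k, H.Q J b' v k) else s v) = true := by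
        simp only [hv, not_false_eq_true, if_true]
      show _ ≠ (if v ∉ J then true else if (∃ t, H.Tr J t ∧ v ∈ H.pt t) then decide (H.Tr J b') else
            if JE H J v then decide (∃ k, H.Q J b' v k) else s v)
      rw [hgv]
      rcases hX.all hvb with h | h | h
      · exact absurd h hbb
      · exact key c d j k hX hLP h
      · refine key d c k j hX.symm (fun h' => hLP fun r hr => h' r ⟨hr.2, hr.1⟩) h
  · have hUb := tok_iff.1 hdu.2
    have hvJ : v ∉ J := hUb v hvb
    rcases hv with hv | ⟨hv, hdv⟩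
    · exact absurd hv hvJ
    · exact absurd (F1 hO hvb hvb' hUb (tok_iff.1 hdv.2)) hbb

end Pool.Agent.Helper63.Inj
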